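import Mathlib

set_option autoImplicit false

namespace Pool.Agent.L0h69.Canc

open Finset

theorem amgm3 (a b c : ℝ) (ha : 0 ≤ a) (hb : 0 ≤ b) (hc : 0 ≤ c) :
    a * b * c ≤ ((a + b + c) / 3) ^ 3 := by
  nlinarith [mul_nonneg ha (sq_nonneg (b - c)), mul_nonneg hb (sq_nonneg (a - c)),
    mul_nonneg hc (sq_nonneg (a - b)), mul_nonneg ha (sq_nonneg (a - b)),
    mul_nonneg ha (sq_nonneg (a - c)), mul_nonneg hb (sq_nonneg (b - a)),
    mul_nonneg hb (sq_nonneg (b - c)), mul_nonneg hc (sq_nonneg (c - a)),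
    mul_nonneg hc (sq_nonneg (c - b)), mul_nonneg ha hb, mul_nonneg hb hc, mul_nonneg ha hc]

/-- A three-function Hölder inequality. -/
theorem holder3 {L : Type*} [Fintype L] (M A Q : L → ℝ) (hM : ∀ l, 0 ≤ M l) (hA : ∀ l, 0 ≤ A l)
    (hQ : ∀ l, 0 ≤ Q l) (h : ∀ l, M l ^ 3 ≤ A l * Q l) :
    (∑ l, M l) ^ 3 ≤ Fintype.card L * (∑ l, A l) * ∑ l, Q l := by
  classical
  rcases isEmpty_or_nonempty L with hL | hL
  · simp
  have hX : (0 : ℝ) < Fintype.card L := by exact_mod_cast Fintype.card_pos
  set X : ℝ := (Fintype.card L : ℝ) with hXdef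
  set Y : ℝ := ∑ l, A l with hY
  set Z : ℝ := ∑ l, Q l with hZ
  have hY0 : 0 ≤ Y := sum_nonneg fun l _ => hA l
  have hZ0 : 0 ≤ Z := sum_nonneg fun l _ => hQ l
  have hzero : (Y = 0 ∨ Z = 0) → (∑ l, M l) ^ 3 ≤ X * Y * Z := by
    intro h0
    have : ∀ l, M l = 0 := by
      intro l
      have h1 := h l
      rcases h0 with h0 | h0
      · have h2 := (sum_eq_zero_iff_of_nonneg fun l _ => hA l).mp h0 l (mem_univ l)
        rw [h2, zero_mul] at h1
        have h3 : M l ^ 3 = 0 := le_antisymm h1 (pow_nonneg (hM l) 3)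
        exact pow_eq_zero_iff (by norm_num) |>.mp h3
      · have h2 := (sum_eq_zero_iff_of_nonneg fun l _ => hQ l).mp h0 l (mem_univ l)
        rw [h2, mul_zero] at h1
        have h3 : M l ^ 3 = 0 := le_antisymm h1 (pow_nonneg (hM l) 3)
        exact pow_eq_zero_iff (by norm_num) |>.mp h3
    simp [this]
    positivity
  rcases eq_or_lt_of_le hY0 with h0 | hYp
  · exact hzero (Or.inl h0.symm)
  rcases eq_or_lt_of_le hZ0 with h0 | hZp
  · exact hzero (Or.inr h0.symm)
  set c : ℝ := (X * Y * Z) ^ ((1 : ℝ) / 3) with hc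
  have hc3 : c ^ 3 = X * Y * Z := by
    rw [hc, ← Real.rpow_natCast, ← Real.rpow_mul (by positivity)]
    norm_num
  have hc0 : 0 < c := by positivity
  have hone : ∀ l, M l ≤ c * ((1 / X + A l / Y + Q l / Z) / 3) := by
    intro l
    have h1 : M l ^ 3 ≤ (c * ((1 / X + A l / Y + Q l / Z) / 3)) ^ 3 := by
      have h2 := amgm3 (1 / X) (A l / Y) (Q l / Z) (by positivity)
        (div_nonneg (hA l) hY0) (div_nonneg (hQ l) hZ0)
      calc M l ^ 3 ≤ A l * Q l := h l
        _ = c ^ 3 * (1 / X * (A l / Y) * (Q l / Z)) := by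
            rw [hc3]
            field_simp
        _ ≤ c ^ 3 * (((1 / X + A l / Y + Q l / Z) / 3) ^ 3) := by gcongr
        _ = _ := by ring
    have h3 : 0 ≤ c * ((1 / X + A l / Y + Q l / Z) / 3) := by
      have := div_nonneg (hA l) hY0
      have := div_nonneg (hQ l) hZ0
      positivity
    exact le_of_pow_le_pow_left₀ (by norm_num) h3 h1
  have hsum : ∑ l, M l ≤ c := by
    calc ∑ l, M l ≤ ∑ l, c * ((1 / X + A l / Y + Q l / Z) / 3) := sum_le_sum fun l _ => hone l
      _ = c := by
        rw [← mul_sum, ← sum_div, sum_add_distrib, sum_add_distrib, ← sum_div, ← sum_div,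
          ← sum_div, ← hY, ← hZ, div_self hYp.ne', div_self hZp.ne']
        simp only [sum_const, card_univ, nsmul_eq_mul, mul_one]
        rw [← hXdef, div_self hX.ne']
        ring
  calc (∑ l, M l) ^ 3 ≤ c ^ 3 := pow_le_pow_left₀ (sum_nonneg fun l _ => hM l) hsum 3
    _ = X * Y * Z := hc3

/-- Counting: a map from the pairs `(z, k)`, `z ∈ Ω`, to a set `L`. -/
theorem count_pairs {Z K L : Type*} [Fintype Z] [Fintype K] [Fintype L]
    (γ : Z → K → L) (S : Set (Z × K × K)) (V : Set (Z × Z × K))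
    (hS : ∀ z k k', γ z k = γ z k' → (z, k, k') ∈ S)
    (hV : ∀ z z' k k₀, γ z k₀ = γ z' k → (z, z', k) ∈ V) :
    (Fintype.card Z * Fintype.card K) ^ 3 ≤ Fintype.card L * Nat.card S * Nat.card V := by
  classical
  let m : L → Z → ℕ := fun l z => (univ.filter fun k => γ z k = l).card
  let M : L → ℕ := fun l => ∑ z, m l z
  let q : L → ℕ := fun l => (univ.filter fun z => m l z ≠ 0).card
  let A : L → ℕ := fun l => ∑ z, m l z ^ 2
  have hMsum : ∑ l, M l = Fintype.card Z * Fintype.card K := by
    simp only [M]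
    rw [sum_comm]
    have : ∀ z, ∑ l, m l z = Fintype.card K := by
      intro z
      simp only [m]
      rw [← card_univ, ← Finset.card_eq_sum_card_fiberwise (f := fun k => γ z k)
        (t := (univ : Finset L)) (s := (univ : Finset K)) (fun k _ => mem_coe.mpr (mem_univ _))]
    simp [this]
  have hSle : ∑ l, A l ≤ Nat.card S := by
    have h1 : ∑ l, A l = Fintype.card {x : Z × K × K // γ x.1 x.2.1 = γ x.1 x.2.2} := by
      rw [Fintype.card_subtype]
      rw [Finset.card_eq_sum_card_fiberwise (f := fun x : Z × K × K => (γ x.1 x.2.1, x.1))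
        (t := (univ : Finset (L × Z))) (fun k _ => mem_coe.mpr (mem_univ _))]
      rw [Fintype.sum_prod_type]
      refine sum_congr rfl fun l _ => sum_congr rfl fun z _ => ?_
      simp only [m]
      rw [sq, ← card_product]
      refine Finset.card_bij (fun x _ => (z, x.1, x.2)) ?_ ?_ ?_
      · intro x hx
        simp only [mem_product, mem_filter, mem_univ, true_and] at hx ⊢
        simp [hx.1, hx.2]
      · intro x _ y _ hxy
        simp only [Prod.mk.injEq, true_and] at hxy
        exact Prod.ext hxy.1 hxy.2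
      · rintro ⟨z', k, k'⟩ hx
        simp only [mem_filter, mem_univ, true_and, Prod.mk.injEq] at hx
        obtain ⟨h1, h2, rfl⟩ := hx
        refine ⟨(k, k'), ?_, rfl⟩
        simp only [mem_product, mem_filter, mem_univ, true_and]
        exact ⟨h2, by rw [← h1]; exact h2⟩
    rw [h1, ← Nat.card_eq_fintype_card]
    refine Nat.card_le_card_of_injective (fun x => (⟨x.1, ?_⟩ : S)) ?_
    · exact hS x.1.1 x.1.2.1 x.1.2.2 x.2
    · intro x y hxy
      have h2 := congrArg (fun a => a.1) hxy
      exact Subtype.ext h2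
  have hVle : ∑ l, q l * M l ≤ Nat.card V := by
    have h1 : ∑ l, q l * M l =
        Fintype.card {x : Z × Z × K // ∃ k₀, γ x.1 k₀ = γ x.2.1 x.2.2} := by
      rw [Fintype.card_subtype]
      rw [Finset.card_eq_sum_card_fiberwise (f := fun x : Z × Z × K => γ x.2.1 x.2.2)
        (t := (univ : Finset L)) (fun k _ => mem_coe.mpr (mem_univ _))]
      refine sum_congr rfl fun l _ => ?_
      have hM : M l = (univ.filter fun x : Z × K => γ x.1 x.2 = l).card := by
        simp only [M, m]
        rw [Finset.card_eq_sum_card_fiberwise (f := fun x : Z × K => x.1)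
          (t := (univ : Finset Z)) (fun k _ => mem_coe.mpr (mem_univ _))]
        refine sum_congr rfl fun z _ => ?_
        refine Finset.card_bij (fun k _ => (z, k)) ?_ ?_ ?_
        · intro k hk
          simpa using hk
        · intro k _ k' _ h
          exact (Prod.ext_iff.mp h).2
        · rintro ⟨z', k⟩ hx
          simp only [mem_filter, mem_univ, true_and] at hx
          obtain ⟨h1, rfl⟩ := hx
          exact ⟨k, by simpa using h1, rfl⟩
      rw [hM]
      simp only [q]
      rw [← card_product]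
      refine Finset.card_bij (fun x _ => (x.1, x.2.1, x.2.2)) ?_ ?_ ?_
      · rintro ⟨z, z', k⟩ hx
        simp only [mem_product, mem_filter, mem_univ, true_and, m] at hx ⊢
        obtain ⟨h1, h2⟩ := hx
        obtain ⟨k₀, hk₀⟩ := Finset.card_pos.mp (Nat.pos_of_ne_zero h1)
        simp only [mem_filter, mem_univ, true_and] at hk₀
        exact ⟨⟨k₀, by rw [hk₀, h2]⟩, h2⟩
      · rintro ⟨z, z', k⟩ _ ⟨y, y', k'⟩ _ hxy
        exact hxy
      · rintro ⟨z, z', k⟩ hx
        simp only [mem_filter, mem_univ, true_and] at hx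
        obtain ⟨⟨k₀, h1⟩, h2⟩ := hx
        refine ⟨(z, z', k), ?_, rfl⟩
        simp only [mem_product, mem_filter, mem_univ, true_and, m]
        refine ⟨?_, h2⟩
        refine Nat.pos_iff_ne_zero.mp (Finset.card_pos.mpr ⟨k₀, ?_⟩)
        simp only [mem_filter, mem_univ, true_and]
        rw [h1, h2]
    rw [h1, ← Nat.card_eq_fintype_card]
    refine Nat.card_le_card_of_injective (fun x => (⟨x.1, ?_⟩ : V)) ?_
    · obtain ⟨k₀, hk₀⟩ := x.2
      exact hV x.1.1 x.1.2.1 x.1.2.2 k₀ hk₀
    · intro x y hxy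
      have h2 := congrArg (fun a => a.1) hxy
      exact Subtype.ext h2
  have hcs : ∀ l, M l ^ 2 ≤ q l * A l := by
    intro l
    have h1 : M l = ∑ z ∈ univ.filter (fun z => m l z ≠ 0), m l z := by
      simp only [M]
      rw [sum_filter_ne_zero]
    have h2 : A l = ∑ z ∈ univ.filter (fun z => m l z ≠ 0), m l z ^ 2 := by
      simp only [A]
      rw [sum_filter]
      refine sum_congr rfl fun z _ => ?_
      split_ifs with h
      · rfl
      · push Not at h
        rw [h]
        rfl
    rw [h1, h2]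
    exact sq_sum_le_card_mul_sum_sq
  have hmain := holder3 (fun l => (M l : ℝ)) (fun l => (A l : ℝ)) (fun l => (q l : ℝ) * M l)
    (fun l => Nat.cast_nonneg _) (fun l => Nat.cast_nonneg _) (fun l => by positivity)
    (fun l => by
      have h1 : ((M l : ℝ)) ^ 2 ≤ q l * A l := by exact_mod_cast hcs l
      have h2 : (0 : ℝ) ≤ M l := Nat.cast_nonneg _
      nlinarith)
  have hmain' : (∑ l, M l) ^ 3 ≤ Fintype.card L * (∑ l, A l) * ∑ l, q l * M l := by
    exact_mod_cast hmain
  rw [hMsum] at hmain'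
  refine hmain'.trans ?_
  gcongr

end Pool.Agent.L0h69.Canc
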