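import Pool.Agent.H522R2.Circuit

set_option autoImplicit false

/-!
# Cancellations in arithmetic circuits for matrix multiplication
-/

namespace Pool.Agent.L0h69.Canc

open Finset Pool.Agent.H522R2 Pool.Agent.H522R2.Circuit MvPolynomial

/-- the variables: the entries `a_{ik}` (left summand) and `b_{kj}` (right summand) of an
`m × n` matrix and of an `n × p` matrix -/
abbrev Var (m n p : ℕ) : Type := (Fin m × Fin n) ⊕ (Fin n × Fin p)

/-- the entry `∑ k, a_{ik} b_{kj}` at the place `z = (i, j)` of the product -/
noncomputable def entry (F : Type*) [CommSemiring F] {m n p : ℕ} (z : Fin m × Fin p) :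
    MvPolynomial (Var m n p) F :=
  ∑ k : Fin n, X (Sum.inl (z.1, k)) * X (Sum.inr (k, z.2))

/-- A monomial cancels at the gate `g`: it occurs in the formal sum (or product) of the two
polynomials which enter the gate, but not in the polynomial computed by the gate. -/
def Cancels {F V : Type*} [CommSemiring F] (C : Circuit F V) (g : Fin C.nodes) : Prop :=
  (∃ i j, C.gate g = Gate.add i j ∧
    ∃ d, (d ∈ (C.poly (C.up g i)).support ∨ d ∈ (C.poly (C.up g j)).support) ∧
      d ∉ (C.poly g).support) ∨
  (∃ i j, C.gate g = Gate.mul i j ∧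
    ∃ d ∈ (C.poly (C.up g i)).support, ∃ e ∈ (C.poly (C.up g j)).support,
      d + e ∉ (C.poly g).support)

/-- the number of gates at which a monomial cancels -/
noncomputable def cancelCount {F V : Type*} [CommSemiring F] (C : Circuit F V) : ℕ :=
  Nat.card {g : Fin C.nodes // Cancels C g}

/-- The entry `z` of the product is touched by a cancellation: a monomial cancels at some gate
which computes a nonzero polynomial all whose monomials are among the monomials
`a_{ik} b_{kj}` of this entry. -/
def Touched {F : Type*} [CommSemiring F] {m n p : ℕ} (C : Circuit F (Var m n p))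
    (z : Fin m × Fin p) : Prop :=
  ∃ g, Cancels C g ∧ C.poly g ≠ 0 ∧ ∀ d ∈ (C.poly g).support, ∃ k : Fin n,
    d = Finsupp.single (Sum.inl (z.1, k)) 1 + Finsupp.single (Sum.inr (k, z.2)) 1

/-- `g` lies in the cone of `w`: there is a directed path (perhaps of length 0) from `g` to `w` -/
inductive Cone {F V : Type*} (C : Circuit F V) : Fin C.nodes → Fin C.nodes → Prop
  | refl (w : Fin C.nodes) : Cone C w w
  | addl (w g : Fin C.nodes) (i j : Fin (w : ℕ)) : C.gate w = Gate.add i j →
      Cone C g (C.up w i) → Cone C g w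
  | addr (w g : Fin C.nodes) (i j : Fin (w : ℕ)) : C.gate w = Gate.add i j →
      Cone C g (C.up w j) → Cone C g w
  | mull (w g : Fin C.nodes) (i j : Fin (w : ℕ)) : C.gate w = Gate.mul i j →
      Cone C g (C.up w i) → Cone C g w
  | mulr (w g : Fin C.nodes) (i j : Fin (w : ℕ)) : C.gate w = Gate.mul i j →
      Cone C g (C.up w j) → Cone C g w

/-- the product `x y` of two variables occurs formally in the cone of the node `w`: this cone
contains a nonscalar product gate such that `x` is a monomial of the polynomial at one of its two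
inputs and `y` is a monomial of the polynomial at the other input -/
def Occurs {F V : Type*} [CommSemiring F] (C : Circuit F V) (w : Fin C.nodes) (x y : V) : Prop :=
  ∃ g, Cone C g w ∧ C.IsNonscalar g ∧ ∃ i j, C.gate g = Gate.mul i j ∧
    ((Finsupp.single x 1 ∈ (C.poly (C.up g i)).support ∧
      Finsupp.single y 1 ∈ (C.poly (C.up g j)).support) ∨
    (Finsupp.single y 1 ∈ (C.poly (C.up g i)).support ∧
      Finsupp.single x 1 ∈ (C.poly (C.up g j)).support))

/-- The number of pairs of an entry `z = (i, j)` in `Ω` and a product `a_{ik} b_{k'j}` (with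
`k ≠ k'` or `k = k'`) which occurs formally in the cone of this entry. -/
noncomputable def sameCount {F : Type*} [CommSemiring F] {m n p : ℕ} (C : Circuit F (Var m n p))
    (Ω : Finset (Fin m × Fin p)) (out : Fin m × Fin p → Fin C.nodes) : ℕ :=
  Nat.card {x : (Fin m × Fin p) × Fin n × Fin n // x.1 ∈ Ω ∧
    Occurs C (out x.1) (Sum.inl (x.1.1, x.2.1)) (Sum.inr (x.2.2, x.1.2))}

/-- The number of pairs of an entry `z` in `Ω` and a term `a_{i'k} b_{kj'}` of an entry
`z' = (i', j')` in `Ω` (`z' ≠ z` or `z' = z`) which occurs formally in the cone of the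
entry `z`. -/
noncomputable def otherCount {F : Type*} [CommSemiring F] {m n p : ℕ} (C : Circuit F (Var m n p))
    (Ω : Finset (Fin m × Fin p)) (out : Fin m × Fin p → Fin C.nodes) : ℕ :=
  Nat.card {x : (Fin m × Fin p) × (Fin m × Fin p) × Fin n // x.1 ∈ Ω ∧ x.2.1 ∈ Ω ∧
    Occurs C (out x.1) (Sum.inl (x.2.1.1, x.2.2)) (Sum.inr (x.2.2, x.2.1.2))}

/-- The number of pairs of an entry `z` in `Ω` and a product `a_{i'k} b_{k'j'}` which occurs
formally in the cone of the entry `z` but is not a monomial of this entry, so that it has to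
cancel. -/
noncomputable def foreignCount {F : Type*} [CommSemiring F] {m n p : ℕ}
    (C : Circuit F (Var m n p)) (Ω : Finset (Fin m × Fin p))
    (out : Fin m × Fin p → Fin C.nodes) : ℕ :=
  Nat.card {x : (Fin m × Fin p) × (Fin m × Fin n) × (Fin n × Fin p) // x.1 ∈ Ω ∧
    ¬ (x.2.1.1 = x.1.1 ∧ x.2.2.2 = x.1.2 ∧ x.2.1.2 = x.2.2.1) ∧
    Occurs C (out x.1) (Sum.inl x.2.1) (Sum.inr x.2.2)}

end Pool.Agent.L0h69.Canc
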