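import Pool.Agent.L0h69.Canc.Trade

set_option autoImplicit false

namespace Pool.Agent.L0h69.Canc

open Finset Pool.Agent.H522R2 Pool.Agent.H522R2.Circuit MvPolynomial

variable {m n p : ℕ} {F : Type*} [Field F]

theorem same_add_other (C : Circuit F (Var m n p)) (Ω : Finset (Fin m × Fin p))
    (out : Fin m × Fin p → Fin C.nodes) :
    sameCount C Ω out + otherCount C Ω out ≤ 2 * (n * Ω.card) + foreignCount C Ω out := by
  classical
  let S := {x : (Fin m × Fin p) × Fin n × Fin n // x.1 ∈ Ω ∧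
    Occurs C (out x.1) (Sum.inl (x.1.1, x.2.1)) (Sum.inr (x.2.2, x.1.2))}
  let V := {x : (Fin m × Fin p) × (Fin m × Fin p) × Fin n // x.1 ∈ Ω ∧ x.2.1 ∈ Ω ∧
    Occurs C (out x.1) (Sum.inl (x.2.1.1, x.2.2)) (Sum.inr (x.2.2, x.2.1.2))}
  let X := {x : (Fin m × Fin p) × (Fin m × Fin n) × (Fin n × Fin p) // x.1 ∈ Ω ∧
    ¬ (x.2.1.1 = x.1.1 ∧ x.2.2.2 = x.1.2 ∧ x.2.1.2 = x.2.2.1) ∧
    Occurs C (out x.1) (Sum.inl x.2.1) (Sum.inr x.2.2)}
  have hinj : Nat.card (S ⊕ V) ≤ Nat.card (((Bool × Fin n × {z // z ∈ Ω}) ⊕ X)) := by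
    let f : S ⊕ V → (Bool × Fin n × {z // z ∈ Ω}) ⊕ X := fun t => match t with
      | .inl x => if h : x.1.2.1 = x.1.2.2 then .inl (true, x.1.2.1, ⟨x.1.1, x.2.1⟩) else
          .inr ⟨(x.1.1, (x.1.1.1, x.1.2.1), (x.1.2.2, x.1.1.2)), x.2.1, fun h' => h h'.2.2, x.2.2⟩
      | .inr x => if h : x.1.2.1 = x.1.1 then .inl (false, x.1.2.2, ⟨x.1.1, x.2.1⟩) else
          .inr ⟨(x.1.1, (x.1.2.1.1, x.1.2.2), (x.1.2.2, x.1.2.1.2)), x.2.1,
            fun h' => h (Prod.ext h'.1 h'.2.1), x.2.2.2⟩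
    refine Nat.card_le_card_of_injective f ?_
    rintro (⟨⟨z, k, k'⟩, hx⟩ | ⟨⟨z, y, k⟩, hx⟩) (⟨⟨w, l, l'⟩, hy⟩ | ⟨⟨w, v, l⟩, hy⟩) hxy
    · by_cases h1 : k = k' <;> by_cases h2 : l = l'
      · simp only [f, h1, h2, dite_true] at hxy
        simp only [Sum.inl.injEq, Prod.mk.injEq, Subtype.mk.injEq, true_and] at hxy
        congr 1
        apply Subtype.ext
        simp [h1, h2, hxy.1, hxy.2]
      · simp [f, h1, h2] at hxy
      · simp [f, h1, h2] at hxy
      · simp only [f, h1, h2, dite_false] at hxy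
        replace hxy := congrArg (fun a => a.1) (Sum.inr.inj hxy)
        simp only [Prod.mk.injEq] at hxy
        congr 1
        apply Subtype.ext
        simp [hxy.1, hxy.2.1.2, hxy.2.2.1]
    · exfalso
      by_cases h1 : k = k' <;> by_cases h2 : v = w
      · simp [f, h1, h2] at hxy
      · simp [f, h1, h2] at hxy
      · simp [f, h1, h2] at hxy
      · simp only [f, h1, h2, dite_false] at hxy
        replace hxy := congrArg (fun a => a.1) (Sum.inr.inj hxy)
        simp only [Prod.mk.injEq] at hxy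
        exact h1 (hxy.2.1.2.trans hxy.2.2.1.symm)
    · exfalso
      by_cases h1 : y = z <;> by_cases h2 : l = l'
      · simp [f, h1, h2] at hxy
      · simp [f, h1, h2] at hxy
      · simp [f, h1, h2] at hxy
      · simp only [f, h1, h2, dite_false] at hxy
        replace hxy := congrArg (fun a => a.1) (Sum.inr.inj hxy)
        simp only [Prod.mk.injEq] at hxy
        exact h2 (hxy.2.1.2.symm.trans hxy.2.2.1)
    · by_cases h1 : y = z <;> by_cases h2 : v = w
      · simp only [f, h1, h2, dite_true] at hxy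
        simp only [Sum.inl.injEq, Prod.mk.injEq, Subtype.mk.injEq, true_and] at hxy
        congr 1
        apply Subtype.ext
        simp [h1, h2, hxy.1, hxy.2]
      · simp [f, h1, h2] at hxy
      · simp [f, h1, h2] at hxy
      · simp only [f, h1, h2, dite_false] at hxy
        replace hxy := congrArg (fun a => a.1) (Sum.inr.inj hxy)
        simp only [Prod.mk.injEq] at hxy
        congr 1
        apply Subtype.ext
        simp [hxy.1, hxy.2.1.2, Prod.ext_iff, hxy.2.1.1, hxy.2.2.2]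
  have h1 : Nat.card (S ⊕ V) = sameCount C Ω out + otherCount C Ω out := by
    rw [Nat.card_sum]
    rfl
  have h2 : Nat.card (((Bool × Fin n × {z // z ∈ Ω}) ⊕ X)) =
      2 * (n * Ω.card) + foreignCount C Ω out := by
    rw [Nat.card_sum, Nat.card_prod, Nat.card_prod]
    congr 1
    simp
  rw [h1, h2] at hinj
  exact hinj

theorem foreign_tradeoff (C : Circuit F (Var m n p)) (Ω : Finset (Fin m × Fin p))
    (out : Fin m × Fin p → Fin C.nodes) (hC : ∀ z ∈ Ω, C.poly (out z) = entry F z) :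
    2 * (n * Ω.card) ^ 3 ≤ C.nonscalarCount * (2 * (n * Ω.card) + foreignCount C Ω out) ^ 2 := by
  have h1 := tradeoff C Ω out hC
  have h2 := same_add_other C Ω out
  set S := sameCount C Ω out
  set V := otherCount C Ω out
  set N := C.nonscalarCount
  set X := foreignCount C Ω out
  have h3 : 4 * (S * V) ≤ (S + V) ^ 2 := by
    zify
    nlinarith [sq_nonneg ((S : ℤ) - V)]
  have h4 : (S + V) ^ 2 ≤ (2 * (n * Ω.card) + X) ^ 2 := Nat.pow_le_pow_left h2 2
  calc 2 * (n * Ω.card) ^ 3 ≤ 2 * (2 * N * S * V) := Nat.mul_le_mul_left 2 h1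
    _ = N * (4 * (S * V)) := by ring
    _ ≤ N * (2 * (n * Ω.card) + X) ^ 2 := Nat.mul_le_mul_left N (h3.trans h4)

end Pool.Agent.L0h69.Canc
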