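import Pool.Agent.L0h69.Canc.Defs

set_option autoImplicit false

namespace Pool.Agent.L0h69.Canc

open Finset Pool.Agent.H522R2 Pool.Agent.H522R2.Circuit MvPolynomial

variable {m n p : ℕ}

/-- the monomial `a_{ik} b_{kj}` -/
noncomputable def term (i : Fin m) (k : Fin n) (j : Fin p) : Var m n p →₀ ℕ :=
  Finsupp.single (Sum.inl (i, k)) 1 + Finsupp.single (Sum.inr (k, j)) 1

theorem term_inj {i : Fin m} {k : Fin n} {j : Fin p} {i' : Fin m} {k' : Fin n} {j' : Fin p} (h : term i k j = term i' k' j') :
    i = i' ∧ k = k' ∧ j = j' := by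
  have h1 := DFunLike.congr_fun h (Sum.inl (i, k))
  have h2 := DFunLike.congr_fun h (Sum.inr (k, j))
  simp only [term, Finsupp.add_apply, Finsupp.single_apply] at h1 h2
  simp at h1 h2
  grind

theorem deg_term (i : Fin m) (k : Fin n) (j : Fin p) : (term i k j).degree = 2 := by
  simp [term, Finsupp.degree_single]

/-- a monomial of degree one -/
theorem eq_single_of_degree_one {σ : Type*} {d : σ →₀ ℕ} (h : d.degree = 1) :
    ∃ x, d = Finsupp.single x 1 := by
  classical
  have hne : d ≠ 0 := by
    rintro rfl
    simp at h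
  obtain ⟨x, hx⟩ := Finsupp.support_nonempty_iff.mpr hne
  have hx1 : 1 ≤ d x := Nat.one_le_iff_ne_zero.mpr (Finsupp.mem_support_iff.mp hx)
  refine ⟨x, ?_⟩
  have hle : Finsupp.single x 1 ≤ d := by
    rw [Finsupp.single_le_iff]
    exact hx1
  have h2 : (d - Finsupp.single x 1).degree + (Finsupp.single x 1 : σ →₀ ℕ).degree = d.degree := by
    rw [← map_add]
    congr 1
    exact tsub_add_cancel_of_le hle
  rw [h, Finsupp.degree_single] at h2
  have h3 : (d - Finsupp.single x 1).degree = 0 := by omega
  have h4 : d - Finsupp.single x 1 = 0 := (Finsupp.degree_eq_zero_iff _).mp h3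
  have h5 := tsub_add_cancel_of_le hle
  rw [h4, zero_add] at h5
  exact h5.symm

/-- two variables whose product is a term -/
theorem vars_of_term {i : Fin m} {k : Fin n} {j : Fin p} {x y : Var m n p}
    (h : Finsupp.single x 1 + Finsupp.single y 1 = term i k j) :
    (x = Sum.inl (i, k) ∧ y = Sum.inr (k, j)) ∨ (x = Sum.inr (k, j) ∧ y = Sum.inl (i, k)) := by
  classical
  have h1 := DFunLike.congr_fun h (Sum.inl (i, k))
  have h2 := DFunLike.congr_fun h (Sum.inr (k, j))
  simp only [term, Finsupp.add_apply, Finsupp.single_apply] at h1 h2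
  simp at h1 h2
  grind

variable {F : Type*} [Field F]

/-- The main step: below a node whose monomials all belong to the entry `(i, j)` and in whose cone
no monomial cancels at a node of this kind, every term is computed alone by a product. -/
theorem descend (C : Circuit F (Var m n p)) (i : Fin m) (j : Fin p)
    (hgood : ∀ g, Cancels C g → (∀ d ∈ (C.poly g).support, ∃ k, d = term i k j) → C.poly g = 0)
    (k : Fin n) : ∀ w : Fin C.nodes, (∀ d ∈ (C.poly w).support, ∃ k, d = term i k j) →
      term i k j ∈ (C.poly w).support →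
      ∃ g, C.IsNonscalar g ∧ ∀ d, d ∈ (C.poly g).support ↔ d = term i k j := by
  classical
  rintro ⟨w, hw⟩
  induction w using Nat.strong_induction_on with
  | _ w ih =>
    intro hsup hmem
    have hne : C.poly ⟨w, hw⟩ ≠ 0 := by
      intro h
      rw [h] at hmem
      simp at hmem
    have hnc : ¬ Cancels C ⟨w, hw⟩ := fun hc => hne (hgood _ hc hsup)
    have hdeg : ∀ d ∈ (C.poly ⟨w, hw⟩).support, d.degree = 2 := by
      intro d hd
      obtain ⟨k', rfl⟩ := hsup d hd
      exact deg_term i k' j
    cases hg : C.gate ⟨w, hw⟩ with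
    | var x =>
      rw [poly, hg] at hmem
      simp only [MvPolynomial.support_X, Finset.mem_singleton] at hmem
      have := deg_term i k j
      rw [hmem, Finsupp.degree_single] at this
      omega
    | const c =>
      rw [poly, hg] at hmem
      simp only [MvPolynomial.mem_support_iff, MvPolynomial.coeff_C] at hmem
      have h0 : (0 : Var m n p →₀ ℕ) = term i k j := by
        by_contra h
        simp [h] at hmem
      have := deg_term i k j
      rw [← h0] at this
      simp at this
    | add u v =>
      have hpoly : C.poly ⟨w, hw⟩ = C.poly (C.up ⟨w, hw⟩ u) + C.poly (C.up ⟨w, hw⟩ v) := by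
        conv_lhs => rw [poly, hg]
      have hu : ∀ d ∈ (C.poly (C.up ⟨w, hw⟩ u)).support, d ∈ (C.poly ⟨w, hw⟩).support := by
        intro d hd
        by_contra hcon
        exact hnc (Or.inl ⟨u, v, hg, d, Or.inl hd, hcon⟩)
      have hv : ∀ d ∈ (C.poly (C.up ⟨w, hw⟩ v)).support, d ∈ (C.poly ⟨w, hw⟩).support := by
        intro d hd
        by_contra hcon
        exact hnc (Or.inl ⟨u, v, hg, d, Or.inr hd, hcon⟩)
      have hm : term i k j ∈ (C.poly (C.up ⟨w, hw⟩ u)).support ∨
          term i k j ∈ (C.poly (C.up ⟨w, hw⟩ v)).support := by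
        rw [hpoly] at hmem
        exact Finset.mem_union.mp (MvPolynomial.support_add hmem)
      rcases hm with hm | hm
      · exact ih u u.2 (u.2.trans hw) (fun d hd => hsup d (hu d hd)) hm
      · exact ih v v.2 (v.2.trans hw) (fun d hd => hsup d (hv d hd)) hm
    | mul u v =>
      have hpoly : C.poly ⟨w, hw⟩ = C.poly (C.up ⟨w, hw⟩ u) * C.poly (C.up ⟨w, hw⟩ v) := by
        conv_lhs => rw [poly, hg]
      have hnc' : ∀ d ∈ (C.poly (C.up ⟨w, hw⟩ u)).support,
          ∀ e ∈ (C.poly (C.up ⟨w, hw⟩ v)).support, d + e ∈ (C.poly ⟨w, hw⟩).support := by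
        intro d hd e he
        by_contra hcon
        exact hnc (Or.inr ⟨u, v, hg, d, hd, e, he, hcon⟩)
      obtain ⟨d₁, hd₁, e₁, he₁, hde⟩ : ∃ d ∈ (C.poly (C.up ⟨w, hw⟩ u)).support,
          ∃ e ∈ (C.poly (C.up ⟨w, hw⟩ v)).support, d + e = term i k j := by
        rw [hpoly] at hmem
        exact Finset.mem_add.mp (MvPolynomial.support_mul _ _ hmem)
      have hsum : ∀ d ∈ (C.poly (C.up ⟨w, hw⟩ u)).support,
          ∀ e ∈ (C.poly (C.up ⟨w, hw⟩ v)).support, d.degree + e.degree = 2 := by
        intro d hd e he
        rw [← map_add]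
        exact hdeg _ (hnc' d hd e he)
      have h11 := hsum d₁ hd₁ e₁ he₁
      have hdu : ∀ d ∈ (C.poly (C.up ⟨w, hw⟩ u)).support, d.degree = d₁.degree := by
        intro d hd
        have := hsum d hd e₁ he₁
        omega
      have hev : ∀ e ∈ (C.poly (C.up ⟨w, hw⟩ v)).support, e.degree = e₁.degree := by
        intro e he
        have := hsum d₁ hd₁ e he
        omega
      have h3 : d₁.degree = 0 ∨ d₁.degree = 1 ∨ d₁.degree = 2 := by omega
      rcases h3 with h3 | h3 | h3
      · -- the first factor is a constant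
        have hd0 : d₁ = 0 := (Finsupp.degree_eq_zero_iff _).mp h3
        subst hd0
        rw [zero_add] at hde
        subst hde
        refine ih v v.2 (v.2.trans hw) (fun e he => hsup e ?_) he₁
        have := hnc' 0 hd₁ e he
        rwa [zero_add] at this
      · -- two linear forms
        have h4 : e₁.degree = 1 := by omega
        obtain ⟨x, rfl⟩ := eq_single_of_degree_one h3
        obtain ⟨y, rfl⟩ := eq_single_of_degree_one h4
        refine ⟨⟨w, hw⟩, ⟨u, v, hg, ?_, ?_⟩, ?_⟩
        · intro c hc
          rw [hc] at hd₁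
          simp only [MvPolynomial.mem_support_iff, MvPolynomial.coeff_C] at hd₁
          have h0 : (0 : Var m n p →₀ ℕ) = Finsupp.single x 1 := by
            by_contra h
            simp [h] at hd₁
          have := Finsupp.single_ne_zero (a := x) (b := 1) |>.mpr one_ne_zero
          exact this h0.symm
        · intro c hc
          rw [hc] at he₁
          simp only [MvPolynomial.mem_support_iff, MvPolynomial.coeff_C] at he₁
          have h0 : (0 : Var m n p →₀ ℕ) = Finsupp.single y 1 := by
            by_contra h
            simp [h] at he₁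
          have := Finsupp.single_ne_zero (a := y) (b := 1) |>.mpr one_ne_zero
          exact this h0.symm
        · intro d
          constructor
          · intro hd
            rw [hpoly] at hd
            obtain ⟨d₂, hd₂, e₂, he₂, rfl⟩ := Finset.mem_add.mp (MvPolynomial.support_mul _ _ hd)
            obtain ⟨x', rfl⟩ := eq_single_of_degree_one ((hdu _ hd₂).trans h3)
            obtain ⟨y', rfl⟩ := eq_single_of_degree_one ((hev _ he₂).trans h4)
            obtain ⟨k₁, hk₁⟩ := hsup _ (hnc' _ hd₂ _ he₁)
            obtain ⟨k₂, hk₂⟩ := hsup _ (hnc' _ hd₁ _ he₂)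
            have hv0 := vars_of_term hde
            have hv1 := vars_of_term (i := i) (k := k₁) (j := j) hk₁
            have hv2 := vars_of_term (i := i) (k := k₂) (j := j) hk₂
            have hx : x' = x ∧ y' = y := by
              clear hgood ih hsup hmem hne hnc hdeg hg hpoly hnc' hd₁ he₁ hde hsum h11 hdu hev
                h3 h4 hd₂ he₂ hd hk₁ hk₂
              rcases hv0 with ⟨rfl, rfl⟩ | ⟨rfl, rfl⟩ <;> simp at hv1 hv2 ⊢ <;> grind
            rw [hx.1, hx.2, hde]
          · rintro rfl
            exact hmem
      · -- the second factor is a constant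
        have h4 : e₁.degree = 0 := by omega
        have he0 : e₁ = 0 := (Finsupp.degree_eq_zero_iff _).mp h4
        subst he0
        rw [add_zero] at hde
        subst hde
        refine ih u u.2 (u.2.trans hw) (fun e he => hsup e ?_) hd₁
        have := hnc' e he 0 he₁
        rwa [add_zero] at this

/-- the entries of the product have the right monomials -/
theorem support_entry (z : Fin m × Fin p) (d : Var m n p →₀ ℕ) :
    d ∈ (entry F (n := n) z).support ↔ ∃ k, d = term z.1 k z.2 := by
  classical
  have h1 : ∀ k : Fin n, (X (Sum.inl (z.1, k)) * X (Sum.inr (k, z.2)) : MvPolynomial (Var m n p) F)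
      = monomial (term z.1 k z.2) 1 := by
    intro k
    rw [X, X, monomial_mul, one_mul]
    rfl
  rw [mem_support_iff, entry]
  simp only [h1, coeff_sum, coeff_monomial]
  constructor
  · intro h
    by_contra hcon
    push Not at hcon
    refine h (Finset.sum_eq_zero fun k _ => ?_)
    rw [if_neg]
    exact fun h => hcon k h.symm
  · rintro ⟨k, rfl⟩
    rw [Finset.sum_eq_single k]
    · simp
    · intro b _ hb
      rw [if_neg]
      intro h
      exact hb (term_inj h).2.1
    · simp

/-- Part 1 of the theorem. -/
theorem lower (C : Circuit F (Var m n p)) (Ω : Finset (Fin m × Fin p))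
    (hC : ∀ z ∈ Ω, ∃ g, C.poly g = entry F z) :
    n * Ω.card ≤ C.nonscalarCount + n * Nat.card {z // z ∈ Ω ∧ Touched C z} ∧
      Nat.card {z // z ∈ Ω ∧ Touched C z} ≤ cancelCount C := by
  classical
  constructor
  · -- good entries
    set B := Ω.filter fun z => Touched C z with hB
    set G := Ω.filter fun z => ¬ Touched C z with hG
    have hcard : Ω.card = B.card + G.card := (Finset.card_filter_add_card_filter_not _).symm
    have hBc : Nat.card {z // z ∈ Ω ∧ Touched C z} = B.card := by
      rw [Nat.card_eq_fintype_card, Fintype.card_subtype]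
      congr 1
      ext z
      simp [hB]
    rw [hBc, hcard]
    have key : ∀ x : {z // z ∈ G} × Fin n, ∃ g, C.IsNonscalar g ∧
        ∀ d, d ∈ (C.poly g).support ↔ d = term x.1.1.1 x.2 x.1.1.2 := by
      rintro ⟨⟨z, hz⟩, k⟩
      have hz' := Finset.mem_filter.mp hz
      obtain ⟨w, hw⟩ := hC z hz'.1
      refine descend C z.1 z.2 ?_ k w ?_ ?_
      · intro g hg hs
        by_contra hne
        exact hz'.2 ⟨g, hg, hne, hs⟩
      · intro d hd
        rw [hw] at hd
        exact (support_entry z d).mp hd
      · rw [hw]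
        exact (support_entry z _).mpr ⟨k, rfl⟩
    choose f hf1 hf2 using key
    have hle : Nat.card ({z // z ∈ G} × Fin n) ≤ C.nonscalarCount := by
      unfold nonscalarCount
      refine Nat.card_le_card_of_injective (fun x => (⟨f x, hf1 x⟩ :
        {k : Fin C.nodes // C.IsNonscalar k})) ?_
      intro x y hxy
      have h1 : f x = f y := congrArg Subtype.val hxy
      have h2 : term x.1.1.1 x.2 x.1.1.2 = term y.1.1.1 y.2 y.1.1.2 := by
        have h3 := (hf2 x (term x.1.1.1 x.2 x.1.1.2)).mpr rfl
        rw [h1] at h3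
        exact (hf2 y _).mp h3
      obtain ⟨h3, h4, h5⟩ := term_inj h2
      refine Prod.ext (Subtype.ext (Prod.ext h3 h5)) h4
    have hG' : Nat.card ({z // z ∈ G} × Fin n) = G.card * n := by
      rw [Nat.card_prod, Nat.card_eq_fintype_card, Nat.card_eq_fintype_card]
      simp
    rw [hG'] at hle
    nlinarith
  · -- different entries are touched at different gates
    unfold cancelCount
    have key : ∀ x : {z // z ∈ Ω ∧ Touched C z}, ∃ g, Cancels C g ∧ C.poly g ≠ 0 ∧
        ∀ d ∈ (C.poly g).support, ∃ k : Fin n,
          d = Finsupp.single (Sum.inl (x.1.1, k)) 1 + Finsupp.single (Sum.inr (k, x.1.2)) 1 :=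
      fun x => x.2.2
    choose f hf1 hf2 hf3 using key
    refine Nat.card_le_card_of_injective (fun x => (⟨f x, hf1 x⟩ :
        {g : Fin C.nodes // Cancels C g})) ?_
    intro x y hxy
    have h1 : f x = f y := congrArg Subtype.val hxy
    obtain ⟨d, hd⟩ := MvPolynomial.support_nonempty.mpr (hf2 x)
    obtain ⟨k, hk⟩ := hf3 x d hd
    rw [h1] at hd
    obtain ⟨k', hk'⟩ := hf3 y d hd
    have h2 : term x.1.1 k x.1.2 = term y.1.1 k' y.1.2 := hk.symm.trans hk'
    obtain ⟨h3, _, h5⟩ := term_inj h2
    exact Subtype.ext (Prod.ext h3 h5)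

end Pool.Agent.L0h69.Canc
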