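import Pool.Agent.L0h69.Canc.Defs

set_option autoImplicit false

/-!
# Adding a node to a circuit
-/

namespace Pool.Agent.L0h69.Canc

open Finset Pool.Agent.H522R2 Pool.Agent.H522R2.Circuit MvPolynomial

variable {F V : Type*}

/-- a gate, with another name for its number -/
def recast {k k' : ℕ} (h : k = k') (g : Gate F V k) : Gate F V k' := h ▸ g

/-- add a node -/
def snoc (C : Circuit F V) (g : Gate F V C.nodes) : Circuit F V where
  nodes := C.nodes + 1
  gate k := if h : (k : ℕ) < C.nodes then C.gate ⟨k, h⟩ else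
    recast (show C.nodes = (k : ℕ) from
      le_antisymm (not_lt.mp h) (Nat.lt_succ_iff.mp k.2)) g

theorem snoc_gate_old (C : Circuit F V) (g : Gate F V C.nodes) (k : ℕ) (h : k < C.nodes) :
    (snoc C g).gate ⟨k, h.trans (Nat.lt_succ_self _)⟩ = C.gate ⟨k, h⟩ := by
  simp [snoc, h]

theorem snoc_gate_new (C : Circuit F V) (g : Gate F V C.nodes) :
    (snoc C g).gate ⟨C.nodes, Nat.lt_succ_self _⟩ = g := by
  simp [snoc, recast]

variable [CommSemiring F]

theorem snoc_poly_old (C : Circuit F V) (g : Gate F V C.nodes) (k : ℕ) (h : k < C.nodes) :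
    (snoc C g).poly ⟨k, h.trans (Nat.lt_succ_self _)⟩ = C.poly ⟨k, h⟩ := by
  induction k using Nat.strong_induction_on with
  | _ k ih =>
    have hold := snoc_gate_old C g k h
    cases hg : C.gate ⟨k, h⟩ with
    | var x =>
      rw [hg] at hold
      conv_lhs => rw [poly, hold]
      conv_rhs => rw [poly, hg]
    | const c =>
      rw [hg] at hold
      conv_lhs => rw [poly, hold]
      conv_rhs => rw [poly, hg]
    | add i j =>
      rw [hg] at hold
      conv_lhs => rw [poly, hold]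
      conv_rhs => rw [poly, hg]
      exact congrArg₂ (· + ·) (ih i i.2 (i.2.trans h)) (ih j j.2 (j.2.trans h))
    | mul i j =>
      rw [hg] at hold
      conv_lhs => rw [poly, hold]
      conv_rhs => rw [poly, hg]
      exact congrArg₂ (· * ·) (ih i i.2 (i.2.trans h)) (ih j j.2 (j.2.trans h))

theorem card_succ_aux {N : ℕ} (Q : Fin N → Prop) (Q' : Fin (N + 1) → Prop)
    (h : ∀ i : Fin N, Q' i.castSucc ↔ Q i) (b : ℕ) (hb : Q' (Fin.last N) → 1 ≤ b) :
    Nat.card {x // Q' x} ≤ Nat.card {x // Q x} + b := by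
  classical
  rw [Nat.card_eq_fintype_card, Nat.card_eq_fintype_card, Fintype.card_subtype,
    Fintype.card_subtype, Finset.card_filter, Finset.card_filter, Fin.sum_univ_castSucc]
  refine Nat.add_le_add (le_of_eq ?_) ?_
  · refine sum_congr rfl fun i _ => ?_
    simp [h i]
  · split_ifs with h1
    · exact hb h1
    · exact Nat.zero_le _

omit [CommSemiring F] in
theorem snoc_size (C : Circuit F V) (g : Gate F V C.nodes) (b : ℕ)
    (hb : ((∃ i j, g = Gate.add i j) ∨ ∃ i j, g = Gate.mul i j) → 1 ≤ b) :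
    (snoc C g).size ≤ C.size + b := by
  unfold size
  refine card_succ_aux (N := C.nodes) _ _ ?_ b ?_
  · intro i
    have h := snoc_gate_old C g i i.2
    change ((∃ a c, (snoc C g).gate ⟨i, i.2.trans (Nat.lt_succ_self _)⟩ = Gate.add a c) ∨
      ∃ a c, (snoc C g).gate ⟨i, i.2.trans (Nat.lt_succ_self _)⟩ = Gate.mul a c) ↔ _
    rw [h]
  · intro h
    change ((∃ a c, (snoc C g).gate ⟨C.nodes, Nat.lt_succ_self _⟩ = Gate.add a c) ∨
      ∃ a c, (snoc C g).gate ⟨C.nodes, Nat.lt_succ_self _⟩ = Gate.mul a c) at h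
    rw [snoc_gate_new] at h
    exact hb h

theorem snoc_cancels_old (C : Circuit F V) (g : Gate F V C.nodes) (k : ℕ) (h : k < C.nodes) :
    Cancels (snoc C g) ⟨k, h.trans (Nat.lt_succ_self _)⟩ ↔ Cancels C ⟨k, h⟩ := by
  unfold Cancels
  have hold := snoc_gate_old C g k h
  have hp : ∀ (i : Fin k), (snoc C g).poly ((snoc C g).up ⟨k, h.trans (Nat.lt_succ_self _)⟩ i) =
      C.poly (C.up ⟨k, h⟩ i) := fun i => snoc_poly_old C g i (i.2.trans h)
  rw [snoc_poly_old C g k h]
  rw [hold]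
  constructor
  · rintro (⟨i, j, h1, h2⟩ | ⟨i, j, h1, h2⟩)
    · refine Or.inl ⟨i, j, h1, ?_⟩
      rw [← hp i, ← hp j]
      exact h2
    · refine Or.inr ⟨i, j, h1, ?_⟩
      rw [← hp i, ← hp j]
      exact h2
  · rintro (⟨i, j, h1, h2⟩ | ⟨i, j, h1, h2⟩)
    · refine Or.inl ⟨i, j, h1, ?_⟩
      rw [← hp i, ← hp j] at h2
      exact h2
    · refine Or.inr ⟨i, j, h1, ?_⟩
      rw [← hp i, ← hp j] at h2
      exact h2

theorem snoc_cancel (C : Circuit F V) (g : Gate F V C.nodes) (b : ℕ)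
    (hb : Cancels (snoc C g) ⟨C.nodes, Nat.lt_succ_self _⟩ → 1 ≤ b) :
    cancelCount (snoc C g) ≤ cancelCount C + b := by
  unfold cancelCount
  refine card_succ_aux (N := C.nodes) _ _ ?_ b ?_
  · intro i
    exact snoc_cancels_old C g i i.2
  · exact hb

/-- there is a circuit which computes all polynomials in `S`, has at most `a` gates and at most
`c` gates at which a monomial cancels -/
def Has (S : Set (MvPolynomial V F)) (a c : ℕ) : Prop :=
  ∃ C : Circuit F V, (∀ q ∈ S, ∃ k, C.poly k = q) ∧ C.size ≤ a ∧ cancelCount C ≤ c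

theorem Has.mono {S T : Set (MvPolynomial V F)} {a c a' c' : ℕ} (h : Has S a c) (hT : T ⊆ S)
    (ha : a ≤ a') (hc : c ≤ c') : Has T a' c' := by
  obtain ⟨C, h1, h2, h3⟩ := h
  exact ⟨C, fun q hq => h1 q (hT hq), h2.trans ha, h3.trans hc⟩

theorem Has.empty : Has (∅ : Set (MvPolynomial V F)) 0 0 := by
  refine ⟨⟨0, fun k => k.elim0⟩, by simp, ?_, ?_⟩
  · unfold size
    rw [Nat.card_eq_zero.mpr (Or.inl ⟨fun x => x.1.elim0⟩)]
  · unfold cancelCount
    rw [Nat.card_eq_zero.mpr (Or.inl ⟨fun x => x.1.elim0⟩)]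

theorem has_snoc {S : Set (MvPolynomial V F)} (C : Circuit F V) (g : Gate F V C.nodes)
    (h : ∀ q ∈ S, ∃ k, C.poly k = q) (q : MvPolynomial V F)
    (hq : (snoc C g).poly ⟨C.nodes, Nat.lt_succ_self _⟩ = q) :
    ∀ r ∈ insert q S, ∃ k, (snoc C g).poly k = r := by
  rintro r (rfl | hr)
  · exact ⟨_, hq⟩
  · obtain ⟨k, hk⟩ := h r hr
    exact ⟨⟨k, k.2.trans (Nat.lt_succ_self _)⟩, (snoc_poly_old C g k k.2).trans hk⟩

theorem Has.var {S : Set (MvPolynomial V F)} {a c : ℕ} (h : Has S a c) (x : V) :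
    Has (insert (X x) S) a c := by
  obtain ⟨C, h1, h2, h3⟩ := h
  have hnew := snoc_gate_new C (Gate.var x)
  refine ⟨snoc C (.var x), has_snoc C _ h1 _ ?_, ?_, ?_⟩
  · rw [poly, hnew]
  · refine (snoc_size C _ 0 ?_).trans (by omega)
    rintro (⟨i, j, hij⟩ | ⟨i, j, hij⟩) <;> cases hij
  · refine (snoc_cancel C _ 0 ?_).trans (by omega)
    rintro (⟨i, j, hij, _⟩ | ⟨i, j, hij, _⟩) <;> (rw [hnew] at hij; cases hij)

theorem Has.const {S : Set (MvPolynomial V F)} {a c : ℕ} (h : Has S a c) (r : F) :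
    Has (insert (MvPolynomial.C r) S) a c := by
  obtain ⟨C, h1, h2, h3⟩ := h
  have hnew := snoc_gate_new C (Gate.const r)
  refine ⟨snoc C (.const r), has_snoc C _ h1 _ ?_, ?_, ?_⟩
  · rw [poly, hnew]
  · refine (snoc_size C _ 0 ?_).trans (by omega)
    rintro (⟨i, j, hij⟩ | ⟨i, j, hij⟩) <;> cases hij
  · refine (snoc_cancel C _ 0 ?_).trans (by omega)
    rintro (⟨i, j, hij, _⟩ | ⟨i, j, hij, _⟩) <;> (rw [hnew] at hij; cases hij)

theorem Has.add {S : Set (MvPolynomial V F)} {a c : ℕ} (h : Has S a c) {q r : MvPolynomial V F}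
    (hq : q ∈ S) (hr : r ∈ S) (b : ℕ)
    (hb : (∃ d, (d ∈ q.support ∨ d ∈ r.support) ∧ d ∉ (q + r).support) → 1 ≤ b) :
    Has (insert (q + r) S) (a + 1) (c + b) := by
  obtain ⟨C, h1, h2, h3⟩ := h
  obtain ⟨u, hu⟩ := h1 q hq
  obtain ⟨v, hv⟩ := h1 r hr
  have hnew := snoc_gate_new C (Gate.add u v)
  have hu' : (snoc C (.add u v)).poly ((snoc C (.add u v)).up ⟨C.nodes, Nat.lt_succ_self _⟩ u)
      = q := (snoc_poly_old C (.add u v) u u.2).trans hu
  have hv' : (snoc C (.add u v)).poly ((snoc C (.add u v)).up ⟨C.nodes, Nat.lt_succ_self _⟩ v)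
      = r := (snoc_poly_old C (.add u v) v v.2).trans hv
  have hp : (snoc C (.add u v)).poly ⟨C.nodes, Nat.lt_succ_self _⟩ = q + r := by
    rw [poly, hnew]
    exact congrArg₂ (· + ·) hu' hv'
  refine ⟨snoc C (.add u v), has_snoc C _ h1 _ hp, ?_, ?_⟩
  · exact (snoc_size C _ 1 (fun _ => le_rfl)).trans (by omega)
  · refine (snoc_cancel C _ b ?_).trans (by omega)
    rintro (⟨i, j, hij, h4⟩ | ⟨i, j, hij, _⟩)
    · rw [hnew] at hij
      injection hij with hi hj
      subst hi hj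
      rw [hu', hv', hp] at h4
      exact hb h4
    · rw [hnew] at hij
      cases hij

theorem Has.mul {S : Set (MvPolynomial V F)} {a c : ℕ} (h : Has S a c) {q r : MvPolynomial V F}
    (hq : q ∈ S) (hr : r ∈ S) (b : ℕ)
    (hb : (∃ d ∈ q.support, ∃ e ∈ r.support, d + e ∉ (q * r).support) → 1 ≤ b) :
    Has (insert (q * r) S) (a + 1) (c + b) := by
  obtain ⟨C, h1, h2, h3⟩ := h
  obtain ⟨u, hu⟩ := h1 q hq
  obtain ⟨v, hv⟩ := h1 r hr
  have hnew := snoc_gate_new C (Gate.mul u v)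
  have hu' : (snoc C (.mul u v)).poly ((snoc C (.mul u v)).up ⟨C.nodes, Nat.lt_succ_self _⟩ u)
      = q := (snoc_poly_old C (.mul u v) u u.2).trans hu
  have hv' : (snoc C (.mul u v)).poly ((snoc C (.mul u v)).up ⟨C.nodes, Nat.lt_succ_self _⟩ v)
      = r := (snoc_poly_old C (.mul u v) v v.2).trans hv
  have hp : (snoc C (.mul u v)).poly ⟨C.nodes, Nat.lt_succ_self _⟩ = q * r := by
    rw [poly, hnew]
    exact congrArg₂ (· * ·) hu' hv'
  refine ⟨snoc C (.mul u v), has_snoc C _ h1 _ hp, ?_, ?_⟩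
  · exact (snoc_size C _ 1 (fun _ => le_rfl)).trans (by omega)
  · refine (snoc_cancel C _ b ?_).trans (by omega)
    rintro (⟨i, j, hij, _⟩ | ⟨i, j, hij, h4⟩)
    · rw [hnew] at hij
      cases hij
    · rw [hnew] at hij
      injection hij with hi hj
      subst hi hj
      rw [hu', hv', hp] at h4
      exact hb h4

end Pool.Agent.L0h69.Canc
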