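import Pool.Agent.L0h69.Canc.Lower
import Pool.Agent.L0h69.Canc.Count

set_option autoImplicit false

namespace Pool.Agent.L0h69.Canc

open Finset Pool.Agent.H522R2 Pool.Agent.H522R2.Circuit MvPolynomial

variable {m n p : ℕ} {F : Type*} [Field F]

/-- the term `a_{ik} b_{kj}` enters a nonscalar product in the cone of `w` in a given order -/
def Feeds (C : Circuit F (Var m n p)) (w g : Fin C.nodes) (o : Bool)
    (x y : Var m n p) : Prop :=
  Cone C g w ∧ C.IsNonscalar g ∧ ∃ i j, C.gate g = Gate.mul i j ∧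
    ((o = true ∧ Finsupp.single x 1 ∈ (C.poly (C.up g i)).support ∧
      Finsupp.single y 1 ∈ (C.poly (C.up g j)).support) ∨
    (o = false ∧ Finsupp.single y 1 ∈ (C.poly (C.up g i)).support ∧
      Finsupp.single x 1 ∈ (C.poly (C.up g j)).support))

theorem Feeds.cross {C : Circuit F (Var m n p)} {w w' g : Fin C.nodes} {o : Bool}
    {x y x' y' : Var m n p} (h : Feeds C w g o x y) (h' : Feeds C w' g o x' y') :
    Occurs C w x y' ∧ Occurs C w x' y := by
  obtain ⟨h1, h2, i, j, h3, h4⟩ := h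
  obtain ⟨h1', _, i', j', h3', h4'⟩ := h'
  rw [h3] at h3'
  injection h3' with hi hj
  subst hi hj
  rcases h4 with ⟨rfl, h5, h6⟩ | ⟨rfl, h5, h6⟩ <;> rcases h4' with ⟨ho, h7, h8⟩ | ⟨ho, h7, h8⟩
  · exact ⟨⟨g, h1, h2, i, j, h3, Or.inl ⟨h5, h8⟩⟩, ⟨g, h1, h2, i, j, h3, Or.inl ⟨h7, h6⟩⟩⟩
  · simp at ho
  · simp at ho
  · exact ⟨⟨g, h1, h2, i, j, h3, Or.inr ⟨h7, h6⟩⟩, ⟨g, h1, h2, i, j, h3, Or.inr ⟨h5, h8⟩⟩⟩

theorem single_ne_C {σ : Type*} {q : MvPolynomial σ F} {x : σ}
    (h : Finsupp.single x 1 ∈ q.support) (c : F) : q ≠ MvPolynomial.C c := by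
  classical
  rintro rfl
  simp only [MvPolynomial.mem_support_iff, MvPolynomial.coeff_C] at h
  have h0 : (0 : σ →₀ ℕ) = Finsupp.single x 1 := by
    by_contra h1
    simp [h1] at h
  exact (Finsupp.single_ne_zero (a := x) (b := 1) |>.mpr one_ne_zero) h0.symm

theorem find (C : Circuit F (Var m n p)) (i : Fin m) (k : Fin n) (j : Fin p) :
    ∀ w : Fin C.nodes, term i k j ∈ (C.poly w).support →
      ∃ g o, Feeds C w g o (Sum.inl (i, k)) (Sum.inr (k, j)) := by
  classical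
  rintro ⟨w, hw⟩
  induction w using Nat.strong_induction_on with
  | _ w ih =>
    intro hmem
    cases hg : C.gate ⟨w, hw⟩ with
    | var x =>
      rw [poly, hg] at hmem
      simp only [MvPolynomial.support_X, Finset.mem_singleton] at hmem
      have := deg_term i k j
      rw [hmem, Finsupp.degree_single] at this
      omega
    | const c =>
      rw [poly, hg] at hmem
      simp only [MvPolynomial.mem_support_iff, MvPolynomial.coeff_C] at hmem
      have h0 : (0 : Var m n p →₀ ℕ) = term i k j := by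
        by_contra h
        simp [h] at hmem
      have := deg_term i k j
      rw [← h0] at this
      simp at this
    | add u v =>
      have hpoly : C.poly ⟨w, hw⟩ = C.poly (C.up ⟨w, hw⟩ u) + C.poly (C.up ⟨w, hw⟩ v) := by
        conv_lhs => rw [poly, hg]
      have hm : term i k j ∈ (C.poly (C.up ⟨w, hw⟩ u)).support ∨
          term i k j ∈ (C.poly (C.up ⟨w, hw⟩ v)).support := by
        rw [hpoly] at hmem
        exact Finset.mem_union.mp (MvPolynomial.support_add hmem)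
      rcases hm with hm | hm
      · obtain ⟨g, o, h1, h2⟩ := ih u u.2 (u.2.trans hw) hm
        exact ⟨g, o, Cone.addl _ _ u v hg h1, h2⟩
      · obtain ⟨g, o, h1, h2⟩ := ih v v.2 (v.2.trans hw) hm
        exact ⟨g, o, Cone.addr _ _ u v hg h1, h2⟩
    | mul u v =>
      have hpoly : C.poly ⟨w, hw⟩ = C.poly (C.up ⟨w, hw⟩ u) * C.poly (C.up ⟨w, hw⟩ v) := by
        conv_lhs => rw [poly, hg]
      obtain ⟨d₁, hd₁, e₁, he₁, hde⟩ : ∃ d ∈ (C.poly (C.up ⟨w, hw⟩ u)).support,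
          ∃ e ∈ (C.poly (C.up ⟨w, hw⟩ v)).support, d + e = term i k j := by
        rw [hpoly] at hmem
        exact Finset.mem_add.mp (MvPolynomial.support_mul _ _ hmem)
      have hsum : d₁.degree + e₁.degree = 2 := by
        rw [← map_add, hde]
        exact deg_term i k j
      have h3 : d₁.degree = 0 ∨ d₁.degree = 1 ∨ d₁.degree = 2 := by omega
      rcases h3 with h3 | h3 | h3
      · have hd0 : d₁ = 0 := (Finsupp.degree_eq_zero_iff _).mp h3
        subst hd0
        rw [zero_add] at hde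
        subst hde
        obtain ⟨g, o, h1, h2⟩ := ih v v.2 (v.2.trans hw) he₁
        exact ⟨g, o, Cone.mulr _ _ u v hg h1, h2⟩
      · have h4 : e₁.degree = 1 := by omega
        obtain ⟨x, rfl⟩ := eq_single_of_degree_one h3
        obtain ⟨y, rfl⟩ := eq_single_of_degree_one h4
        have hns : C.IsNonscalar ⟨w, hw⟩ := ⟨u, v, hg, single_ne_C hd₁, single_ne_C he₁⟩
        rcases vars_of_term hde with ⟨rfl, rfl⟩ | ⟨rfl, rfl⟩
        · exact ⟨⟨w, hw⟩, true, Cone.refl _, hns, u, v, hg, Or.inl ⟨rfl, hd₁, he₁⟩⟩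
        · exact ⟨⟨w, hw⟩, false, Cone.refl _, hns, u, v, hg, Or.inr ⟨rfl, hd₁, he₁⟩⟩
      · have h4 : e₁.degree = 0 := by omega
        have he0 : e₁ = 0 := (Finsupp.degree_eq_zero_iff _).mp h4
        subst he0
        rw [add_zero] at hde
        subst hde
        obtain ⟨g, o, h1, h2⟩ := ih u u.2 (u.2.trans hw) hd₁
        exact ⟨g, o, Cone.mull _ _ u v hg h1, h2⟩

theorem tradeoff (C : Circuit F (Var m n p)) (Ω : Finset (Fin m × Fin p))
    (out : Fin m × Fin p → Fin C.nodes) (hC : ∀ z ∈ Ω, C.poly (out z) = entry F z) :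
    (n * Ω.card) ^ 3 ≤ 2 * C.nonscalarCount * sameCount C Ω out * otherCount C Ω out := by
  classical
  have key : ∀ (z : {z // z ∈ Ω}) (k : Fin n), ∃ g o,
      Feeds C (out z.1) g o (Sum.inl (z.1.1, k)) (Sum.inr (k, z.1.2)) := by
    intro z k
    refine find C z.1.1 k z.1.2 (out z.1) ?_
    rw [hC z.1 z.2]
    exact (support_entry z.1 _).mpr ⟨k, rfl⟩
  choose g o hgo using key
  let γ : {z // z ∈ Ω} → Fin n → {k : Fin C.nodes // C.IsNonscalar k} × Bool :=
    fun z k => (⟨g z k, (hgo z k).2.1⟩, o z k)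
  let S : Set ({z // z ∈ Ω} × Fin n × Fin n) :=
    {x | Occurs C (out x.1.1) (Sum.inl (x.1.1.1, x.2.1)) (Sum.inr (x.2.2, x.1.1.2))}
  let V : Set ({z // z ∈ Ω} × {z // z ∈ Ω} × Fin n) :=
    {x | Occurs C (out x.1.1) (Sum.inl (x.2.1.1.1, x.2.2)) (Sum.inr (x.2.2, x.2.1.1.2))}
  have hγ : ∀ z k z' k', γ z k = γ z' k' → g z k = g z' k' ∧ o z k = o z' k' := by
    intro z k z' k' h
    simp only [γ, Prod.mk.injEq, Subtype.mk.injEq] at h
    exact h
  have hmain := count_pairs γ S V (by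
    intro z k k' h
    obtain ⟨h1, h2⟩ := hγ _ _ _ _ h
    have h3 := hgo z k
    rw [h1, h2] at h3
    exact (h3.cross (hgo z k')).1) (by
    intro z z' k k₀ h
    obtain ⟨h1, h2⟩ := hγ _ _ _ _ h
    have h3 := hgo z k₀
    rw [h1, h2] at h3
    obtain ⟨h4, h5⟩ := h3.cross (hgo z' k)
    -- both factors of the term of `z'` enter the gate
    obtain ⟨c1, c2, i, j, c3, c4⟩ := h3
    obtain ⟨_, _, i', j', c3', c4'⟩ := hgo z' k
    rw [c3] at c3'
    injection c3' with hi hj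
    subst hi hj
    rcases c4' with ⟨_, h7, h8⟩ | ⟨_, h7, h8⟩
    · exact ⟨_, c1, c2, i, j, c3, Or.inl ⟨h7, h8⟩⟩
    · exact ⟨_, c1, c2, i, j, c3, Or.inr ⟨h7, h8⟩⟩)
  have hL : Fintype.card ({k : Fin C.nodes // C.IsNonscalar k} × Bool) =
      2 * C.nonscalarCount := by
    rw [Fintype.card_prod, Fintype.card_bool, mul_comm, nonscalarCount, Nat.card_eq_fintype_card]
  have hSle : Nat.card S ≤ sameCount C Ω out := by
    unfold sameCount
    refine Nat.card_le_card_of_injective (fun x => (⟨(x.1.1.1, x.1.2), x.1.1.2, x.2⟩ :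
      {x : (Fin m × Fin p) × Fin n × Fin n // x.1 ∈ Ω ∧
        Occurs C (out x.1) (Sum.inl (x.1.1, x.2.1)) (Sum.inr (x.2.2, x.1.2))})) ?_
    rintro ⟨⟨z, y⟩, hx⟩ ⟨⟨z', y'⟩, hx'⟩ hxy
    simp only [Subtype.mk.injEq, Prod.mk.injEq] at hxy
    have h1 : z = z' := Subtype.ext hxy.1
    subst h1
    simp [hxy.2]
  have hVle : Nat.card V ≤ otherCount C Ω out := by
    unfold otherCount
    refine Nat.card_le_card_of_injective (fun x => (⟨(x.1.1.1, x.1.2.1.1, x.1.2.2),
      x.1.1.2, x.1.2.1.2, x.2⟩ : {x : (Fin m × Fin p) × (Fin m × Fin p) × Fin n // x.1 ∈ Ω ∧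
        x.2.1 ∈ Ω ∧ Occurs C (out x.1) (Sum.inl (x.2.1.1, x.2.2)) (Sum.inr (x.2.2, x.2.1.2))})) ?_
    rintro ⟨⟨z, y, k⟩, hx⟩ ⟨⟨z', y', k'⟩, hx'⟩ hxy
    simp only [Subtype.mk.injEq, Prod.mk.injEq] at hxy
    have h1 : z = z' := Subtype.ext hxy.1
    have h2 : y = y' := Subtype.ext hxy.2.1
    subst h1 h2
    simp [hxy.2.2]
  rw [hL, Fintype.card_fin, Fintype.card_coe, mul_comm Ω.card n] at hmain
  refine hmain.trans ?_
  gcongr

end Pool.Agent.L0h69.Canc
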