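import Pool.Agent.L0h69.Canc.Snoc

set_option autoImplicit false

/-!
# Circuits with few cancelling gates
-/

namespace Pool.Agent.L0h69.Canc

open Finset Pool.Agent.H522R2 Pool.Agent.H522R2.Circuit MvPolynomial

variable {F V : Type*} [Field F] [LinearOrder F] [IsStrictOrderedRing F]

/-- all coefficients are nonnegative -/
def Pos (q : MvPolynomial V F) : Prop := ∀ d, 0 ≤ q.coeff d

theorem Pos.add {q r : MvPolynomial V F} (hq : Pos q) (hr : Pos r) : Pos (q + r) := by
  intro d
  rw [coeff_add]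
  exact add_nonneg (hq d) (hr d)

theorem Pos.mul {q r : MvPolynomial V F} (hq : Pos q) (hr : Pos r) : Pos (q * r) := by
  classical
  intro d
  rw [coeff_mul]
  exact sum_nonneg fun x _ => mul_nonneg (hq _) (hr _)

theorem pos_X (x : V) : Pos (X x : MvPolynomial V F) := by
  classical
  intro d
  rw [coeff_X]
  split_ifs
  · exact zero_le_one
  · exact le_rfl

omit [IsStrictOrderedRing F] in
theorem pos_C {c : F} (hc : 0 ≤ c) : Pos (C c : MvPolynomial V F) := by
  classical
  intro d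
  rw [coeff_C]
  split_ifs
  · exact hc
  · exact le_rfl

theorem Pos.no_add {q r : MvPolynomial V F} (hq : Pos q) (hr : Pos r) :
    (∃ d, (d ∈ q.support ∨ d ∈ r.support) ∧ d ∉ (q + r).support) → 1 ≤ 0 := by
  rintro ⟨d, h1, h2⟩
  exfalso
  rw [mem_support_iff, not_not, coeff_add] at h2
  have h3 := hq d
  have h4 := hr d
  rcases h1 with h1 | h1
  · rw [mem_support_iff] at h1
    have h5 : 0 < q.coeff d := lt_of_le_of_ne h3 (Ne.symm h1)
    linarith
  · rw [mem_support_iff] at h1
    have h5 : 0 < r.coeff d := lt_of_le_of_ne h4 (Ne.symm h1)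
    linarith

theorem Pos.no_mul {q r : MvPolynomial V F} (hq : Pos q) (hr : Pos r) :
    (∃ d ∈ q.support, ∃ e ∈ r.support, d + e ∉ (q * r).support) → 1 ≤ 0 := by
  classical
  rintro ⟨d, h1, e, h2, h3⟩
  exfalso
  rw [mem_support_iff, not_not, coeff_mul] at h3
  rw [mem_support_iff] at h1 h2
  have h5 : 0 < q.coeff d := lt_of_le_of_ne (hq d) (Ne.symm h1)
  have h6 : 0 < r.coeff e := lt_of_le_of_ne (hr e) (Ne.symm h2)
  have h7 := (sum_eq_zero_iff_of_nonneg (fun x _ => mul_nonneg (hq x.1) (hr x.2))).mp h3 (d, e)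
    (by simp)
  exact (mul_pos h5 h6).ne' h7

/-- positive and negative part of the polynomial at a node -/
noncomputable def parts (C : Circuit F V) (k : Fin C.nodes) :
    MvPolynomial V F × MvPolynomial V F :=
  match C.gate k with
  | .var x => (X x, 0)
  | .const c => (MvPolynomial.C (max c 0), MvPolynomial.C (max (-c) 0))
  | .add i j => ((parts C (C.up k i)).1 + (parts C (C.up k j)).1,
      (parts C (C.up k i)).2 + (parts C (C.up k j)).2)
  | .mul i j => ((parts C (C.up k i)).1 * (parts C (C.up k j)).1 +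
        (parts C (C.up k i)).2 * (parts C (C.up k j)).2,
      (parts C (C.up k i)).1 * (parts C (C.up k j)).2 +
        (parts C (C.up k i)).2 * (parts C (C.up k j)).1)
termination_by (k : ℕ)
decreasing_by all_goals simp [up]

theorem parts_spec (C : Circuit F V) (k : Fin C.nodes) :
    C.poly k = (parts C k).1 - (parts C k).2 ∧ Pos (parts C k).1 ∧ Pos (parts C k).2 := by
  obtain ⟨k, hk⟩ := k
  induction k using Nat.strong_induction_on with
  | _ k ih =>
    rw [poly, parts]
    cases h : C.gate ⟨k, hk⟩ with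
    | var x =>
      refine ⟨by simp, pos_X x, ?_⟩
      intro d
      simp
    | const c =>
      refine ⟨?_, pos_C (le_max_right _ _), pos_C (le_max_right _ _)⟩
      simp only
      rw [← map_sub]
      congr 1
      rcases le_total c 0 with hc | hc
      · rw [max_eq_right hc, max_eq_left (by linarith)]
        ring
      · rw [max_eq_left hc, max_eq_right (by linarith)]
        ring
    | add i j =>
      obtain ⟨h1, h2, h3⟩ := ih i i.2 (i.2.trans hk)
      obtain ⟨g1, g2, g3⟩ := ih j j.2 (j.2.trans hk)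
      refine ⟨?_, h2.add g2, h3.add g3⟩
      change C.poly ⟨i, i.2.trans hk⟩ + C.poly ⟨j, j.2.trans hk⟩ =
        ((parts C ⟨i, i.2.trans hk⟩).1 + (parts C ⟨j, j.2.trans hk⟩).1) -
        ((parts C ⟨i, i.2.trans hk⟩).2 + (parts C ⟨j, j.2.trans hk⟩).2)
      rw [h1, g1]
      ring
    | mul i j =>
      obtain ⟨h1, h2, h3⟩ := ih i i.2 (i.2.trans hk)
      obtain ⟨g1, g2, g3⟩ := ih j j.2 (j.2.trans hk)
      refine ⟨?_, (h2.mul g2).add (h3.mul g3), (h2.mul g3).add (h3.mul g2)⟩
      change C.poly ⟨i, i.2.trans hk⟩ * C.poly ⟨j, j.2.trans hk⟩ =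
        ((parts C ⟨i, i.2.trans hk⟩).1 * (parts C ⟨j, j.2.trans hk⟩).1 +
          (parts C ⟨i, i.2.trans hk⟩).2 * (parts C ⟨j, j.2.trans hk⟩).2) -
        ((parts C ⟨i, i.2.trans hk⟩).1 * (parts C ⟨j, j.2.trans hk⟩).2 +
          (parts C ⟨i, i.2.trans hk⟩).2 * (parts C ⟨j, j.2.trans hk⟩).1)
      rw [h1, g1]
      ring

/-- the parts of the first `k` nodes -/
def partSet (C : Circuit F V) (k : ℕ) : Set (MvPolynomial V F) :=
  {q | ∃ j : Fin C.nodes, (j : ℕ) < k ∧ (q = (parts C j).1 ∨ q = (parts C j).2)}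

omit [IsStrictOrderedRing F] in
theorem partSet_succ (C : Circuit F V) (k : ℕ) (hk : k < C.nodes) :
    partSet C (k + 1) ⊆ insert (parts C ⟨k, hk⟩).2 (insert (parts C ⟨k, hk⟩).1 (partSet C k)) := by
  rintro q ⟨j, hj, hq⟩
  rcases Nat.lt_succ_iff_lt_or_eq.mp hj with hj | hj
  · exact Or.inr (Or.inr ⟨j, hj, hq⟩)
  · have : j = ⟨k, hk⟩ := Fin.ext hj
    subst this
    rcases hq with rfl | rfl
    · exact Or.inr (Or.inl rfl)
    · exact Or.inl rfl

/-- number of gates among the first `k` nodes -/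
noncomputable def gatesBelow (C : Circuit F V) (k : ℕ) : ℕ :=
  Nat.card {j : Fin C.nodes // (j : ℕ) < k ∧
    ((∃ i i', C.gate j = Gate.add i i') ∨ ∃ i i', C.gate j = Gate.mul i i')}

omit [Field F] [LinearOrder F] [IsStrictOrderedRing F] in
theorem gatesBelow_mono (C : Circuit F V) (k : ℕ) : gatesBelow C k ≤ gatesBelow C (k + 1) := by
  unfold gatesBelow
  refine Nat.card_le_card_of_injective (fun x => (⟨x.1, Nat.lt_succ_of_lt x.2.1, x.2.2⟩ :
    {j : Fin C.nodes // (j : ℕ) < k + 1 ∧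
    ((∃ i i', C.gate j = Gate.add i i') ∨ ∃ i i', C.gate j = Gate.mul i i')})) ?_
  intro x y h
  have h2 := congrArg (fun a => a.1) h
  exact Subtype.ext h2

omit [Field F] [LinearOrder F] [IsStrictOrderedRing F] in
theorem gatesBelow_succ (C : Circuit F V) (k : ℕ) (hk : k < C.nodes)
    (hg : (∃ i i', C.gate ⟨k, hk⟩ = Gate.add i i') ∨ ∃ i i', C.gate ⟨k, hk⟩ = Gate.mul i i') :
    gatesBelow C k + 1 ≤ gatesBelow C (k + 1) := by
  classical
  unfold gatesBelow
  rw [Nat.card_eq_fintype_card, Nat.card_eq_fintype_card, Fintype.card_subtype,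
    Fintype.card_subtype, Nat.add_one_le_iff]
  refine Finset.card_lt_card ?_
  rw [Finset.ssubset_iff_of_subset]
  · refine ⟨⟨k, hk⟩, ?_, ?_⟩
    · simp only [mem_filter, mem_univ, true_and]
      exact ⟨Nat.lt_succ_self k, hg⟩
    · simp only [mem_filter, mem_univ, true_and, not_and]
      intro h
      exact absurd h (lt_irrefl k)
  · intro j hj
    simp only [mem_filter, mem_univ, true_and] at hj ⊢
    exact ⟨Nat.lt_succ_of_lt hj.1, hj.2⟩

theorem has_parts (C : Circuit F V) (k : ℕ) (hk : k ≤ C.nodes) :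
    Has (partSet C k) (6 * gatesBelow C k) 0 := by
  induction k with
  | zero =>
    refine Has.empty.mono ?_ (Nat.zero_le _) le_rfl
    rintro q ⟨j, hj, _⟩
    exact absurd hj (Nat.not_lt_zero _)
  | succ k ih =>
    have hk' : k < C.nodes := hk
    have hprev := ih hk'.le
    have hsub := partSet_succ C k hk'
    cases hg : C.gate ⟨k, hk'⟩ with
    | var x =>
      have hpt : parts C ⟨k, hk'⟩ = (X x, 0) := by rw [parts, hg]
      have h1 := (hprev.var x).const 0
      refine h1.mono (hsub.trans ?_) (Nat.mul_le_mul_left 6 (gatesBelow_mono C k)) le_rfl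
      rw [hpt]
      simp
    | const c =>
      have hpt : parts C ⟨k, hk'⟩ =
          (MvPolynomial.C (max c 0), MvPolynomial.C (max (-c) 0)) := by rw [parts, hg]
      have h1 := (hprev.const (max c 0)).const (max (-c) 0)
      refine h1.mono (hsub.trans ?_) (Nat.mul_le_mul_left 6 (gatesBelow_mono C k)) le_rfl
      rw [hpt]
    | add i j =>
      have hpt : parts C ⟨k, hk'⟩ = ((parts C (C.up ⟨k, hk'⟩ i)).1 + (parts C (C.up ⟨k, hk'⟩ j)).1,
          (parts C (C.up ⟨k, hk'⟩ i)).2 + (parts C (C.up ⟨k, hk'⟩ j)).2) := by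
        conv_lhs => rw [parts, hg]
      have hi1 : (parts C (C.up ⟨k, hk'⟩ i)).1 ∈ partSet C k := ⟨_, i.2, Or.inl rfl⟩
      have hi2 : (parts C (C.up ⟨k, hk'⟩ i)).2 ∈ partSet C k := ⟨_, i.2, Or.inr rfl⟩
      have hj1 : (parts C (C.up ⟨k, hk'⟩ j)).1 ∈ partSet C k := ⟨_, j.2, Or.inl rfl⟩
      have hj2 : (parts C (C.up ⟨k, hk'⟩ j)).2 ∈ partSet C k := ⟨_, j.2, Or.inr rfl⟩
      obtain ⟨_, pi1, pi2⟩ := parts_spec C (C.up ⟨k, hk'⟩ i)
      obtain ⟨_, pj1, pj2⟩ := parts_spec C (C.up ⟨k, hk'⟩ j)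
      have h1 := hprev.add hi1 hj1 0 (pi1.no_add pj1)
      have h2 := h1.add (Set.mem_insert_of_mem _ hi2) (Set.mem_insert_of_mem _ hj2) 0
        (pi2.no_add pj2)
      have h3 := gatesBelow_succ C k hk' (Or.inl ⟨i, j, hg⟩)
      refine h2.mono (hsub.trans ?_) (by omega) le_rfl
      rw [hpt]
    | mul i j =>
      have hpt : parts C ⟨k, hk'⟩ = ((parts C (C.up ⟨k, hk'⟩ i)).1 * (parts C (C.up ⟨k, hk'⟩ j)).1 +
        (parts C (C.up ⟨k, hk'⟩ i)).2 * (parts C (C.up ⟨k, hk'⟩ j)).2,
          (parts C (C.up ⟨k, hk'⟩ i)).1 * (parts C (C.up ⟨k, hk'⟩ j)).2 +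
        (parts C (C.up ⟨k, hk'⟩ i)).2 * (parts C (C.up ⟨k, hk'⟩ j)).1) := by
        conv_lhs => rw [parts, hg]
      have hi1 : (parts C (C.up ⟨k, hk'⟩ i)).1 ∈ partSet C k := ⟨_, i.2, Or.inl rfl⟩
      have hi2 : (parts C (C.up ⟨k, hk'⟩ i)).2 ∈ partSet C k := ⟨_, i.2, Or.inr rfl⟩
      have hj1 : (parts C (C.up ⟨k, hk'⟩ j)).1 ∈ partSet C k := ⟨_, j.2, Or.inl rfl⟩
      have hj2 : (parts C (C.up ⟨k, hk'⟩ j)).2 ∈ partSet C k := ⟨_, j.2, Or.inr rfl⟩
      obtain ⟨_, pi1, pi2⟩ := parts_spec C (C.up ⟨k, hk'⟩ i)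
      obtain ⟨_, pj1, pj2⟩ := parts_spec C (C.up ⟨k, hk'⟩ j)
      have h1 := hprev.mul hi1 hj1 0 (pi1.no_mul pj1)
      have h2 := h1.mul (Set.mem_insert_of_mem _ hi2) (Set.mem_insert_of_mem _ hj2) 0
        (pi2.no_mul pj2)
      have h3 := h2.mul (Set.mem_insert_of_mem _ (Set.mem_insert_of_mem _ hi1))
        (Set.mem_insert_of_mem _ (Set.mem_insert_of_mem _ hj2)) 0 (pi1.no_mul pj2)
      have h4 := h3.mul (Set.mem_insert_of_mem _ (Set.mem_insert_of_mem _
        (Set.mem_insert_of_mem _ hi2))) (Set.mem_insert_of_mem _ (Set.mem_insert_of_mem _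
        (Set.mem_insert_of_mem _ hj1))) 0 (pi2.no_mul pj1)
      have h5 := h4.add (q := (parts C (C.up ⟨k, hk'⟩ i)).1 * (parts C (C.up ⟨k, hk'⟩ j)).1)
        (r := (parts C (C.up ⟨k, hk'⟩ i)).2 * (parts C (C.up ⟨k, hk'⟩ j)).2)
        (by simp) (by simp) 0 ((pi1.mul pj1).no_add (pi2.mul pj2))
      have h6 := h5.add (q := (parts C (C.up ⟨k, hk'⟩ i)).1 * (parts C (C.up ⟨k, hk'⟩ j)).2)
        (r := (parts C (C.up ⟨k, hk'⟩ i)).2 * (parts C (C.up ⟨k, hk'⟩ j)).1)
        (by simp) (by simp) 0 ((pi1.mul pj2).no_add (pi2.mul pj1))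
      have h7 := gatesBelow_succ C k hk' (Or.inr ⟨i, j, hg⟩)
      refine h6.mono (hsub.trans ?_) (by omega) le_rfl
      rw [hpt]
      refine Set.insert_subset_insert (Set.insert_subset_insert ?_)
      intro q hq
      exact Set.mem_insert_of_mem _ (Set.mem_insert_of_mem _ (Set.mem_insert_of_mem _
        (Set.mem_insert_of_mem _ hq)))

omit [Field F] [LinearOrder F] [IsStrictOrderedRing F] in
theorem gatesBelow_nodes (C : Circuit F V) : gatesBelow C C.nodes ≤ C.size := by
  unfold gatesBelow size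
  refine Nat.card_le_card_of_injective (fun x => (⟨x.1, x.2.2⟩ :
    {j : Fin C.nodes // ((∃ i i', C.gate j = Gate.add i i') ∨
      ∃ i i', C.gate j = Gate.mul i i')})) ?_
  intro x y h
  have h2 := congrArg (fun a => a.1) h
  exact Subtype.ext h2

theorem no_neg (q : MvPolynomial V F) :
    (∃ d ∈ (C (-1 : F) : MvPolynomial V F).support, ∃ e ∈ q.support,
      d + e ∉ (C (-1 : F) * q).support) → 1 ≤ 0 := by
  classical
  rintro ⟨d, h1, e, h2, h3⟩
  exfalso
  rw [mem_support_iff, coeff_C] at h1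
  have hd : d = 0 := by
    by_contra h
    rw [if_neg (fun h' => h h'.symm)] at h1
    exact h1 rfl
  subst hd
  rw [zero_add, mem_support_iff, not_not, coeff_C_mul] at h3
  rw [mem_support_iff] at h2
  apply h2
  linarith

variable {m n p : ℕ}

/-- the entries in `T`, by subtracting the two parts -/
theorem has_sub (C : Circuit F (Var m n p)) (hC : ∀ z, ∃ k, C.poly k = entry F z)
    (T : Finset (Fin m × Fin p)) :
    Has (partSet C C.nodes ∪ {q | ∃ z ∈ T, q = entry F z}) (6 * C.size + 2 * T.card) T.card := by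
  classical
  induction T using Finset.induction_on with
  | empty =>
    refine (has_parts C C.nodes le_rfl).mono ?_ ?_ le_rfl
    · simp
    · have := gatesBelow_nodes C
      simp
      omega
  | insert z T hz ih =>
    obtain ⟨k, hk⟩ := hC z
    obtain ⟨h1, h2, h3⟩ := parts_spec C k
    have m1 : (parts C k).1 ∈ partSet C C.nodes := ⟨k, k.2, Or.inl rfl⟩
    have m2 : (parts C k).2 ∈ partSet C C.nodes := ⟨k, k.2, Or.inr rfl⟩
    have g1 := ih.const (-1)
    have g2 := g1.mul (Set.mem_insert _ _) (Set.mem_insert_of_mem _ (Or.inl m2)) 0 (no_neg _)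
    have g3 := g2.add (Set.mem_insert_of_mem _ (Set.mem_insert_of_mem _ (Or.inl m1)))
      (Set.mem_insert _ _) 1 (fun _ => le_rfl)
    have he : (parts C k).1 + MvPolynomial.C (-1) * (parts C k).2 = entry F z := by
      rw [← hk, h1, map_neg, map_one]
      ring
    rw [he] at g3
    rw [card_insert_of_notMem hz]
    refine g3.mono ?_ (by omega) (by omega)
    rintro q (hq | ⟨z', hz', rfl⟩)
    · exact Set.mem_insert_of_mem _ (Set.mem_insert_of_mem _ (Set.mem_insert_of_mem _ (Or.inl hq)))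
    · rcases Finset.mem_insert.mp hz' with rfl | hz'
      · exact Set.mem_insert _ _
      · exact Set.mem_insert_of_mem _ (Set.mem_insert_of_mem _ (Set.mem_insert_of_mem _
          (Or.inr ⟨z', hz', rfl⟩)))

/-- one entry, computed by the definition -/
theorem has_school {S : Set (MvPolynomial (Var m n p) F)} {a c : ℕ} (h : Has S a c)
    (z : Fin m × Fin p) (K : Finset (Fin n)) :
    Has (insert (∑ k ∈ K, X (Sum.inl (z.1, k)) * X (Sum.inr (k, z.2))) S)
      (a + 2 * K.card) c := by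
  classical
  induction K using Finset.induction_on with
  | empty =>
    have h1 := h.const 0
    simpa using h1
  | insert k K hk ih =>
    have h1 := (ih.var (Sum.inl (z.1, k))).var (Sum.inr (k, z.2))
    have h2 := h1.mul (q := X (Sum.inl (z.1, k))) (r := X (Sum.inr (k, z.2))) (by simp) (by simp) 0
      ((pos_X _).no_mul (pos_X _))
    have hpos : Pos (∑ k ∈ K, X (Sum.inl (z.1, k)) * X (Sum.inr (k, z.2)) :
        MvPolynomial (Var m n p) F) := by
      intro d
      rw [coeff_sum]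
      exact sum_nonneg fun k _ => ((pos_X _).mul (pos_X _)) d
    have h3 := h2.add (q := X (Sum.inl (z.1, k)) * X (Sum.inr (k, z.2)))
      (r := ∑ k ∈ K, X (Sum.inl (z.1, k)) * X (Sum.inr (k, z.2))) (by simp) (by simp) 0
      (((pos_X _).mul (pos_X _)).no_add hpos)
    rw [sum_insert hk, card_insert_of_notMem hk]
    refine h3.mono ?_ (by omega) le_rfl
    refine Set.insert_subset_insert ?_
    intro q hq
    exact Set.mem_insert_of_mem _ (Set.mem_insert_of_mem _ (Set.mem_insert_of_mem _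
      (Set.mem_insert_of_mem _ hq)))

theorem has_all {S : Set (MvPolynomial (Var m n p) F)} {a c : ℕ} (h : Has S a c)
    (T : Finset (Fin m × Fin p)) :
    Has (S ∪ {q | ∃ z ∈ T, q = entry F z}) (a + 2 * n * T.card) c := by
  classical
  induction T using Finset.induction_on with
  | empty => simpa using h
  | insert z T hz ih =>
    have h1 := has_school ih z univ
    rw [card_insert_of_notMem hz]
    refine h1.mono ?_ ?_ le_rfl
    · rintro q (hq | ⟨z', hz', rfl⟩)
      · exact Set.mem_insert_of_mem _ (Or.inl hq)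
      · rcases Finset.mem_insert.mp hz' with rfl | hz'
        · exact Set.mem_insert _ _
        · exact Set.mem_insert_of_mem _ (Or.inr ⟨z', hz', rfl⟩)
    · rw [card_univ, Fintype.card_fin]
      nlinarith

/-- Part 2 of the theorem. -/
theorem upper (C : Circuit F (Var m n p)) (hC : ∀ z, ∃ k, C.poly k = entry F z) (s : ℕ)
    (hs : s ≤ m * p) :
    ∃ C' : Circuit F (Var m n p), (∀ z, ∃ k, C'.poly k = entry F z) ∧ cancelCount C' ≤ s ∧
      C'.size ≤ 6 * C.size + 2 * s + 2 * n * (m * p - s) := by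
  classical
  have hcard : s ≤ (univ : Finset (Fin m × Fin p)).card := by
    rw [card_univ, Fintype.card_prod, Fintype.card_fin, Fintype.card_fin]
    exact hs
  obtain ⟨T, _, hT⟩ := Finset.exists_subset_card_eq hcard
  have h1 := has_sub C hC T
  have h2 := has_all h1 (univ \ T)
  have hTc : (univ \ T).card = m * p - s := by
    rw [card_sdiff_of_subset (subset_univ T), hT, card_univ, Fintype.card_prod, Fintype.card_fin,
      Fintype.card_fin]
  rw [hT, hTc] at h2
  obtain ⟨C', h3, h4, h5⟩ := h2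
  refine ⟨C', ?_, h5, h4⟩
  intro z
  refine h3 _ ?_
  by_cases hz : z ∈ T
  · exact Or.inl (Or.inr ⟨z, hz, rfl⟩)
  · exact Or.inr ⟨z, by simp [hz], rfl⟩

end Pool.Agent.L0h69.Canc
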